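import Mathlib

set_option autoImplicit false

/-! # Dominating 2-broadcasts -/

namespace Pool.Agent.MP888150

/-- A dominating 2-broadcast of `G`: a function with values in `{0, 1, ..., diam G}` such that
every vertex `u` hears at least two distinct vertices `v₁ ≠ v₂` of positive value, where `u` hears
`v` when `dist u v ≤ f v`. -/
def IsDominating2Broadcast {V : Type*} (G : SimpleGraph V) (f : V → ℕ) : Prop :=
  (∀ v, f v ≤ G.diam) ∧
    ∀ u, ∃ v₁ v₂, v₁ ≠ v₂ ∧ 0 < f v₁ ∧ 0 < f v₂ ∧ G.dist u v₁ ≤ f v₁ ∧ G.dist u v₂ ≤ f v₂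

/-- The 2-broadcast domination number: the least cost (sum of values) of a dominating
2-broadcast of `G`. -/
noncomputable def gammaB2 {V : Type*} [Fintype V] (G : SimpleGraph V) : ℕ :=
  sInf {c : ℕ | ∃ f : V → ℕ, IsDominating2Broadcast G f ∧ ∑ v, f v = c}

end Pool.Agent.MP888150
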