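import Mathlib

set_option autoImplicit false
set_option linter.unusedSectionVars false

/-!
# The line lemma

Items `w` with extents `[lo w, hi w] ⊆ [0, N)`.  A cut `c` is clean when no extent crosses it.
We cover every item by two balls with distinct centres in `[0, N)` at total cost at most
`(2 * #items + 4) / 3`.
-/

namespace Pool.Agent.MP888150

open Finset

variable {W : Type*} [Fintype W]

/-- The data: every item has an extent inside `[0, N)`, each integer point of `[0, N)` is an item,
and each unclean cut is the right end or the left end (plus one) of a nontrivial extent. -/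
structure Items (lo hi : W → ℤ) (N : ℤ) : Prop where
  lo_nonneg : ∀ w, 0 ≤ lo w
  le : ∀ w, lo w ≤ hi w
  hi_lt : ∀ w, hi w < N
  path : ∀ i, 0 ≤ i → i < N → ∃ w, lo w = i ∧ hi w = i
  cut : ∀ w e, lo w < e → e ≤ hi w → ∃ w', lo w' < hi w' ∧ (e = hi w' ∨ e = lo w' + 1)

/-- The cut between `c - 1` and `c` is clean. -/
def Clean (lo hi : W → ℤ) (c : ℤ) : Prop := ∀ w, hi w < c ∨ c ≤ lo w

/-- number of items left of the cut -/
noncomputable def cnt (hi : W → ℤ) (c : ℤ) : ℤ := ((univ.filter fun w => hi w < c).card : ℤ)

/-- deficiency -/
noncomputable def phi (hi : W → ℤ) (c : ℤ) : ℤ := 3 * c - 2 * cnt hi c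

variable {lo hi : W → ℤ} {N : ℤ}

theorem clean_zero (H : Items lo hi N) : Clean lo hi 0 := fun w => Or.inr (H.lo_nonneg w)

theorem clean_N (H : Items lo hi N) : Clean lo hi N := fun w => Or.inl (H.hi_lt w)

theorem phi_zero (H : Items lo hi N) : phi hi 0 = 0 := by
  unfold phi cnt
  have : (univ.filter fun w => hi w < 0) = ∅ := by
    apply Finset.filter_eq_empty_iff.2
    intro w _
    have h1 := H.lo_nonneg w
    have h2 := H.le w
    omega
  rw [this]; simp

theorem phi_N (H : Items lo hi N) : phi hi N = 3 * N - 2 * (Fintype.card W : ℤ) := by
  unfold phi cnt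
  have : (univ.filter fun w => hi w < N) = univ := by
    apply Finset.filter_true_of_mem
    intro w _
    exact H.hi_lt w
  rw [this]; simp

/-- The key counting estimate for an elementary block. -/
theorem block (H : Items lo hi N) {c c' : ℤ} (hc : Clean lo hi c) (hc' : Clean lo hi c')
    (h0 : 0 ≤ c) (hlt : c < c') (hN : c' ≤ N) (hno : ∀ e, c < e → e < c' → ¬ Clean lo hi e) :
    3 * (c' - c) - 1 ≤ 2 * (cnt hi c' - cnt hi c) := by
  classical
  set S := univ.filter fun w => c ≤ lo w ∧ hi w < c' with hS
  have hcard : cnt hi c' - cnt hi c = (S.card : ℤ) := by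
    unfold cnt
    have h1 : (univ.filter fun w => hi w < c') = (univ.filter fun w => hi w < c) ∪ S := by
      ext w
      simp only [hS, mem_filter, mem_univ, true_and, mem_union]
      have h2 := H.le w
      rcases hc w with h3 | h3
      · constructor
        · intro _; left; exact h3
        · intro _; omega
      · constructor
        · intro h4; right; exact ⟨h3, h4⟩
        · intro h4
          rcases h4 with h4 | h4
          · omega
          · exact h4.2
    have h2 : Disjoint (univ.filter fun w => hi w < c) S := by
      rw [Finset.disjoint_left]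
      intro w hw hw'
      simp only [hS, mem_filter, mem_univ, true_and] at hw hw'
      have h2 := H.le w
      omega
    rw [h1, Finset.card_union_of_disjoint h2]
    push_cast
    ring
  rw [hcard]
  set O := S.filter fun w => lo w < hi w with hO
  set P := S.filter fun w => ¬ lo w < hi w with hP
  have hSP : O.card + P.card = S.card := Finset.card_filter_add_card_filter_not _
  -- path items
  have hP1 : (Finset.Ico c c').card ≤ P.card := by
    have : Finset.Ico c c' ⊆ P.image lo := by
      intro i hi'
      rw [Finset.mem_Ico] at hi'
      obtain ⟨w, hw1, hw2⟩ := H.path i (by omega) (by omega)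
      rw [Finset.mem_image]
      refine ⟨w, ?_, hw1⟩
      simp only [hP, hS, mem_filter, mem_univ, true_and]
      omega
    exact le_trans (Finset.card_le_card this) Finset.card_image_le
  have hO1 : (Finset.Ioo c c').card ≤ 2 * O.card := by
    have : Finset.Ioo c c' ⊆ O.image hi ∪ O.image (fun w => lo w + 1) := by
      intro e he
      rw [Finset.mem_Ioo] at he
      have h1 := hno e he.1 he.2
      unfold Clean at h1
      push Not at h1
      obtain ⟨w, hw1, hw2⟩ := h1
      obtain ⟨w', hw', hw3⟩ := H.cut w e hw2 hw1
      have hmem : w' ∈ O := by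
        simp only [hO, hS, mem_filter, mem_univ, true_and]
        have h4 := hc w'
        have h5 := hc' w'
        omega
      rw [Finset.mem_union, Finset.mem_image, Finset.mem_image]
      rcases hw3 with h | h
      · left; exact ⟨w', hmem, h.symm⟩
      · right; exact ⟨w', hmem, h.symm⟩
    have h2 := Finset.card_le_card this
    have h3 := Finset.card_union_le (O.image hi) (O.image (fun w => lo w + 1))
    have h4 : (O.image hi).card ≤ O.card := Finset.card_image_le
    have h5 : (O.image (fun w => lo w + 1)).card ≤ O.card := Finset.card_image_le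
    omega
  rw [Int.card_Ico] at hP1
  rw [Int.card_Ioo] at hO1
  omega

theorem exists_next (H : Items lo hi N) {c : ℤ} (hlt : c < N) :
    ∃ c', Clean lo hi c' ∧ c < c' ∧ c' ≤ N ∧ ∀ e, c < e → e < c' → ¬ Clean lo hi e := by
  classical
  have hex : ∃ k : ℕ, Clean lo hi (c + 1 + k) := by
    refine ⟨(N - c - 1).toNat, ?_⟩
    have : c + 1 + ((N - c - 1).toNat : ℤ) = N := by omega
    rw [this]; exact clean_N H
  refine ⟨c + 1 + Nat.find hex, Nat.find_spec hex, by omega, ?_, ?_⟩
  · have h1 : Nat.find hex ≤ (N - c - 1).toNat := by
      apply Nat.find_min'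
      have : c + 1 + ((N - c - 1).toNat : ℤ) = N := by omega
      rw [this]; exact clean_N H
    omega
  · intro e he1 he2 he3
    have h1 : Nat.find hex ≤ (e - c - 1).toNat := by
      apply Nat.find_min'
      have : c + 1 + ((e - c - 1).toNat : ℤ) = e := by omega
      rw [this]; exact he3
    omega

/-- There is a next clean cut at odd distance, of small deficiency. -/
theorem exists_odd (H : Items lo hi N) : ∀ (k : ℕ) {c : ℤ}, (N - c).toNat = k → Clean lo hi c →
    0 ≤ c → c ≤ N → 1 ≤ phi hi N - phi hi c →
    ∃ c', Clean lo hi c' ∧ c < c' ∧ c' ≤ N ∧ (c' - c) % 2 = 1 ∧ phi hi c' ≤ phi hi c + 1 := by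
  intro k
  induction k using Nat.strong_induction_on with
  | _ k ih =>
    intro c hk hc h0 hcN hD
    have hlt : c < N := by
      rcases lt_or_eq_of_le hcN with h | h
      · exact h
      · subst h; omega
    obtain ⟨c1, hc1, hcc1, hc1N, hno⟩ := exists_next H hlt
    have hb := block H hc hc1 h0 hcc1 hc1N hno
    have hphi : phi hi c1 - phi hi c = 3 * (c1 - c) - 2 * (cnt hi c1 - cnt hi c) := by
      unfold phi; ring
    rcases Int.emod_two_eq_zero_or_one (c1 - c) with h2 | h2
    · have h3 : phi hi c1 ≤ phi hi c := by omega
      obtain ⟨c', h4, h5, h6, h7, h8⟩ := ih (N - c1).toNat (by omega) rfl hc1 (by omega) hc1N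
        (by omega)
      exact ⟨c', h4, by omega, h6, by omega, by omega⟩
    · exact ⟨c1, hc1, hcc1, hc1N, h2, by omega⟩

/-- `x` is the centre of a ball of `g` covering the item `w`. -/
def Cov (lo hi : W → ℤ) (g : ℤ → ℕ) (w : W) (x : ℤ) : Prop :=
  g x ≠ 0 ∧ x - g x ≤ lo w ∧ hi w ≤ x + g x

theorem sum_update_le (s : Finset ℤ) (g : ℤ → ℕ) (x : ℤ) (r : ℕ) :
    ∑ y ∈ s, Function.update g x r y ≤ r + ∑ y ∈ s, g y := by
  classical
  have h1 : ∀ y ∈ s, Function.update g x r y ≤ (if y = x then r else 0) + g y := by
    intro y _
    by_cases h : y = x
    · subst h; simp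
    · simp [h]
  refine le_trans (Finset.sum_le_sum h1) ?_
  rw [Finset.sum_add_distrib]
  gcongr
  rw [Finset.sum_ite_eq']
  split_ifs <;> omega

/-- The suffix lemma. -/
theorem suffix (H : Items lo hi N) : ∀ (k : ℕ) {l c : ℤ}, (N - c).toNat = k → Clean lo hi c →
    -1 ≤ l → l < c → 0 ≤ c → c ≤ N → (c - l) % 2 = 1 → 2 ≤ phi hi N - phi hi c →
    ∃ g : ℤ → ℕ,
      (∀ x, g x ≠ 0 → l + c < 2 * x + 1 ∧ x < N) ∧
      (∀ w, c ≤ lo w → ∃ x y, x ≠ y ∧ Cov lo hi g w x ∧ Cov lo hi g w y) ∧
      (∀ w, l ≤ lo w → hi w < c → ∃ x, Cov lo hi g w x) ∧
      6 * ((∑ x ∈ Ico 0 N, g x : ℕ) : ℤ) ≤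
        3 * (2 * N - l - c - 1) - 2 * (phi hi N - phi hi c) + 8 := by
  classical
  intro k
  induction k using Nat.strong_induction_on with
  | _ k ih =>
    intro l c hk hc hl hlc h0 hcN hodd hD
    obtain ⟨c1, hc1, hcc1, hc1N, ho1, hp1⟩ := exists_odd H _ rfl hc h0 hcN (by omega)
    obtain ⟨c2, hc2, hcc2, hc2N, ho2, hp2⟩ := exists_odd H _ rfl hc1 (by omega) hc1N (by omega)
    rcases le_or_gt (phi hi N - phi hi c) 4 with hD4 | hD5
    · -- base case
      rcases Int.emod_two_eq_zero_or_one (N - c) with hpar | hpar
      · -- two balls `[l, N)` and `[c, N + 1)`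
        set x1 := (l + N - 1) / 2 with hx1
        set r1 := ((N - l - 1) / 2).toNat with hr1
        set x2 := (c + N) / 2 with hx2
        set r2 := ((N - c) / 2).toNat with hr2
        have hne : x1 ≠ x2 := by omega
        refine ⟨Function.update (Function.update (fun _ => 0) x1 r1) x2 r2, ?_, ?_, ?_, ?_⟩
        · intro x hx
          by_cases hxx2 : x = x2
          · subst hxx2; omega
          · rw [Function.update_of_ne hxx2] at hx
            by_cases hxx1 : x = x1
            · subst hxx1; omega
            · rw [Function.update_of_ne hxx1] at hx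
              exact absurd rfl hx
        · intro w hw
          have hw2 := H.hi_lt w
          refine ⟨x1, x2, hne, ?_, ?_⟩
          · unfold Cov
            rw [Function.update_of_ne hne, Function.update_self]
            omega
          · unfold Cov
            rw [Function.update_self]
            omega
        · intro w hw hw'
          have hw2 := H.hi_lt w
          refine ⟨x1, ?_⟩
          unfold Cov
          rw [Function.update_of_ne hne, Function.update_self]
          omega
        · have h1 := sum_update_le (Ico 0 N) (Function.update (fun _ => 0) x1 r1) x2 r2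
          have h2 := sum_update_le (Ico 0 N) (fun _ => 0) x1 r1
          rw [Finset.sum_const_zero] at h2
          omega
      · -- three balls `[l, c2)`, `[c, N)`, `[c2 - 1, N + 1)`
        set x1 := (l + c2 - 1) / 2 with hx1
        set r1 := ((c2 - l - 1) / 2).toNat with hr1
        set x2 := (c + N - 1) / 2 with hx2
        set r2 := ((N - c - 1) / 2).toNat with hr2
        set x3 := (c2 + N - 1) / 2 with hx3
        set r3 := ((N - c2 + 1) / 2).toNat with hr3
        have hne12 : x1 ≠ x2 := by omega
        have hne13 : x1 ≠ x3 := by omega
        have hne23 : x2 ≠ x3 := by omega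
        refine ⟨Function.update (Function.update (Function.update (fun _ => 0) x1 r1) x2 r2) x3 r3,
          ?_, ?_, ?_, ?_⟩
        · intro x hx
          by_cases hxx3 : x = x3
          · subst hxx3; omega
          · rw [Function.update_of_ne hxx3] at hx
            by_cases hxx2 : x = x2
            · subst hxx2; omega
            · rw [Function.update_of_ne hxx2] at hx
              by_cases hxx1 : x = x1
              · subst hxx1; omega
              · rw [Function.update_of_ne hxx1] at hx
                exact absurd rfl hx
        · intro w hw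
          have hw2 := H.hi_lt w
          have hw3 := H.le w
          rcases hc2 w with h | h
          · refine ⟨x1, x2, hne12, ?_, ?_⟩
            · unfold Cov
              rw [Function.update_of_ne hne13, Function.update_of_ne hne12, Function.update_self]
              omega
            · unfold Cov
              rw [Function.update_of_ne hne23, Function.update_self]
              omega
          · refine ⟨x2, x3, hne23, ?_, ?_⟩
            · unfold Cov
              rw [Function.update_of_ne hne23, Function.update_self]
              omega
            · unfold Cov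
              rw [Function.update_self]
              omega
        · intro w hw hw'
          refine ⟨x1, ?_⟩
          unfold Cov
          rw [Function.update_of_ne hne13, Function.update_of_ne hne12, Function.update_self]
          omega
        · have h0 := sum_update_le (Ico 0 N)
            (Function.update (Function.update (fun _ => 0) x1 r1) x2 r2) x3 r3
          have h1 := sum_update_le (Ico 0 N) (Function.update (fun _ => 0) x1 r1) x2 r2
          have h2 := sum_update_le (Ico 0 N) (fun _ => 0) x1 r1
          rw [Finset.sum_const_zero] at h2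
          omega
    · -- recursion
      obtain ⟨c3, hc3, hcc3, hc3N, ho3, hp3⟩ := exists_odd H _ rfl hc2 (by omega) hc2N (by omega)
      obtain ⟨g', hg1, hg2, hg3, hg4⟩ := ih (N - c3).toNat (by omega) rfl hc3 (l := c2)
        (by omega) hcc3 (by omega) hc3N ho3 (by omega)
      set x1 := (l + c2 - 1) / 2 with hx1
      set r1 := ((c2 - l - 1) / 2).toNat with hr1
      set x2 := (c + c3 - 1) / 2 with hx2
      set r2 := ((c3 - c - 1) / 2).toNat with hr2
      have hne12 : x1 ≠ x2 := by omega
      have hg' : ∀ x, g' x ≠ 0 → x ≠ x1 ∧ x ≠ x2 := by
        intro x hx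
        have := hg1 x hx
        omega
      have hcov' : ∀ w x, Cov lo hi g' w x →
          Cov lo hi (Function.update (Function.update g' x1 r1) x2 r2) w x := by
        intro w x hx
        obtain ⟨h1, h2⟩ := hg' x hx.1
        unfold Cov
        rw [Function.update_of_ne h2, Function.update_of_ne h1]
        exact hx
      refine ⟨Function.update (Function.update g' x1 r1) x2 r2, ?_, ?_, ?_, ?_⟩
      · intro x hx
        by_cases hxx2 : x = x2
        · subst hxx2; omega
        · rw [Function.update_of_ne hxx2] at hx
          by_cases hxx1 : x = x1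
          · subst hxx1; omega
          · rw [Function.update_of_ne hxx1] at hx
            have := hg1 x hx
            omega
      · intro w hw
        have hw3 := H.le w
        rcases hc3 w with h | h
        · rcases hc2 w with h' | h'
          · refine ⟨x1, x2, hne12, ?_, ?_⟩
            · unfold Cov
              rw [Function.update_of_ne hne12, Function.update_self]
              omega
            · unfold Cov
              rw [Function.update_self]
              omega
          · obtain ⟨x, hx⟩ := hg3 w h' h
            refine ⟨x2, x, (hg' x hx.1).2.symm, ?_, hcov' w x hx⟩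
            unfold Cov
            rw [Function.update_self]
            omega
        · obtain ⟨x, y, hxy, hx, hy⟩ := hg2 w h
          exact ⟨x, y, hxy, hcov' w x hx, hcov' w y hy⟩
      · intro w hw hw'
        refine ⟨x1, ?_⟩
        unfold Cov
        rw [Function.update_of_ne hne12, Function.update_self]
        omega
      · have h1 := sum_update_le (Ico 0 N) (Function.update g' x1 r1) x2 r2
        have h2 := sum_update_le (Ico 0 N) g' x1 r1
        omega

/-- **Line lemma.** -/
theorem line (H : Items lo hi N) (hN : 2 ≤ N) :
    ∃ g : ℤ → ℕ,
      (∀ x, g x ≠ 0 → 0 ≤ x ∧ x < N) ∧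
      (∀ w, ∃ x y, x ≠ y ∧ Cov lo hi g w x ∧ Cov lo hi g w y) ∧
      3 * (∑ x ∈ Ico 0 N, g x) ≤ 2 * Fintype.card W + 4 := by
  classical
  have hp0 := phi_zero H
  have hpN := phi_N H
  rcases le_or_gt (phi hi N - phi hi 0) 4 with hD | hD
  · rcases Int.emod_two_eq_zero_or_one N with hpar | hpar
    · set x1 := N / 2 - 1 with hx1
      set x2 := N / 2 with hx2
      set r := (N / 2).toNat with hr
      have hne : x1 ≠ x2 := by omega
      refine ⟨Function.update (Function.update (fun _ => 0) x1 r) x2 r, ?_, ?_, ?_⟩
      · intro x hx
        by_cases hxx2 : x = x2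
        · subst hxx2; omega
        · rw [Function.update_of_ne hxx2] at hx
          by_cases hxx1 : x = x1
          · subst hxx1; omega
          · rw [Function.update_of_ne hxx1] at hx
            exact absurd rfl hx
      · intro w
        have h1 := H.hi_lt w
        have h2 := H.lo_nonneg w
        refine ⟨x1, x2, hne, ?_, ?_⟩
        · unfold Cov
          rw [Function.update_of_ne hne, Function.update_self]
          omega
        · unfold Cov
          rw [Function.update_self]
          omega
      · have h1 := sum_update_le (Ico 0 N) (Function.update (fun _ => 0) x1 r) x2 r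
        have h2 := sum_update_le (Ico 0 N) (fun _ => 0) x1 r
        rw [Finset.sum_const_zero] at h2
        omega
    · set x1 := N / 2 with hx1
      set x2 := N / 2 + 1 with hx2
      set r1 := (N / 2).toNat with hr1
      set r2 := (N / 2 + 1).toNat with hr2
      have hne : x1 ≠ x2 := by omega
      refine ⟨Function.update (Function.update (fun _ => 0) x1 r1) x2 r2, ?_, ?_, ?_⟩
      · intro x hx
        by_cases hxx2 : x = x2
        · subst hxx2; omega
        · rw [Function.update_of_ne hxx2] at hx
          by_cases hxx1 : x = x1
          · subst hxx1; omega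
          · rw [Function.update_of_ne hxx1] at hx
            exact absurd rfl hx
      · intro w
        have h1 := H.hi_lt w
        have h2 := H.lo_nonneg w
        refine ⟨x1, x2, hne, ?_, ?_⟩
        · unfold Cov
          rw [Function.update_of_ne hne, Function.update_self]
          omega
        · unfold Cov
          rw [Function.update_self]
          omega
      · have h1 := sum_update_le (Ico 0 N) (Function.update (fun _ => 0) x1 r1) x2 r2
        have h2 := sum_update_le (Ico 0 N) (fun _ => 0) x1 r1
        rw [Finset.sum_const_zero] at h2
        omega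
  · obtain ⟨g, hg1, hg2, hg3, hg4⟩ := suffix H _ rfl (clean_zero H) (l := -1) (by omega)
      (by omega) le_rfl (by omega) (by decide) (by omega)
    refine ⟨g, ?_, ?_, ?_⟩
    · intro x hx
      have := hg1 x hx
      omega
    · intro w
      exact hg2 w (H.lo_nonneg w)
    · omega

end Pool.Agent.MP888150
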