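import Pool.Agent.Lib_MP_888150_co.Line
import Pool.Agent.Lib_MP_888150_co.Defs

set_option autoImplicit false

/-!
# Extents of the vertices of a tree along a diametral path
-/

namespace Pool.Agent.MP888150

open SimpleGraph Finset

variable {V : Type*} {G : SimpleGraph V}

/-- In a tree, a vertex has at most one neighbour closer to `w`. -/
theorem closer_unique (hG : G.IsTree) {w x y z : V} (hxy : G.Adj y x) (hxz : G.Adj z x)
    (h1 : G.dist w x = G.dist w y + 1) (h2 : G.dist w x = G.dist w z + 1) : y = z := by
  obtain ⟨p, hp, hp'⟩ := hG.connected.exists_path_of_dist w y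
  obtain ⟨q, hq, hq'⟩ := hG.connected.exists_path_of_dist w z
  have e1 : (p.concat hxy).IsPath := by
    apply Walk.isPath_of_length_eq_dist
    rw [Walk.length_concat, hp', h1]
  have e2 : (q.concat hxz).IsPath := by
    apply Walk.isPath_of_length_eq_dist
    rw [Walk.length_concat, hq', h2]
  have e3 := (hG.existsUnique_path w x).unique e1 e2
  have e4 : (p.concat hxy).penultimate = (q.concat hxz).penultimate := by rw [e3]
  rwa [Walk.penultimate_concat, Walk.penultimate_concat] at e4

/-- A diametral path. -/
structure DPath (G : SimpleGraph V) (d : ℕ) (v : ℕ → V) : Prop where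
  adj : ∀ i, i < d → G.Adj (v i) (v (i + 1))
  dist0 : ∀ i, i ≤ d → G.dist (v 0) (v i) = i
  distd : ∀ i, i ≤ d → G.dist (v i) (v d) = d - i
  diam : ∀ x y, G.dist x y ≤ d

theorem exists_dpath [Finite V] (hG : G.Connected) : ∃ v, DPath G G.diam v := by
  have := hG.nonempty
  have hdiam : ∀ x y, G.dist x y ≤ G.diam := fun x y =>
    dist_le_diam (connected_iff_ediam_ne_top.1 hG)
  obtain ⟨a, b, hab⟩ := G.exists_dist_eq_diam
  obtain ⟨p, hp⟩ := hG.exists_walk_length_eq_dist a b
  have hp2 : p.length = G.diam := by rw [hp, hab]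
  have h0 : p.getVert 0 = a := p.getVert_zero
  have hd : p.getVert G.diam = b := by rw [← hp2]; exact p.getVert_length
  have key1 : ∀ i, i ≤ G.diam → G.dist a (p.getVert i) ≤ i := by
    intro i hi
    have := G.dist_le (p.take i)
    rw [Walk.take_length] at this
    omega
  have key2 : ∀ i, i ≤ G.diam → G.dist (p.getVert i) b ≤ G.diam - i := by
    intro i hi
    have := G.dist_le (p.drop i)
    rw [Walk.drop_length] at this
    omega
  refine ⟨p.getVert, ?_, ?_, ?_, hdiam⟩
  · intro i hi
    exact p.adj_getVert_succ (by omega)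
  · intro i hi
    rw [h0]
    have h1 := key1 i hi
    have h2 := key2 i hi
    have h3 := hG.dist_triangle (u := a) (v := p.getVert i) (w := b)
    omega
  · intro i hi
    rw [hd]
    have h1 := key1 i hi
    have h2 := key2 i hi
    have h3 := hG.dist_triangle (u := a) (v := p.getVert i) (w := b)
    omega

section

variable {d : ℕ} {v : ℕ → V}

theorem DPath.inj (D : DPath G d v) {i j : ℕ} (hi : i ≤ d) (hj : j ≤ d) (h : v i = v j) :
    i = j := by
  have h1 := D.dist0 i hi
  have h2 := D.dist0 j hj
  rw [h] at h1
  omega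

/-- distances to the diametral path -/
def Rep (G : SimpleGraph V) (d : ℕ) (v : ℕ → V) (w : V) (p h : ℕ) : Prop :=
  p ≤ d ∧ ∀ i, i ≤ d → (G.dist w (v i) : ℤ) = h + |(p : ℤ) - i|

theorem exists_rep (hG : G.IsTree) (D : DPath G d v) (w : V) : ∃ p h, Rep G d v w p h := by
  classical
  obtain ⟨p, hp, hmin⟩ := Finset.exists_min_image (Finset.range (d + 1))
    (fun i => G.dist w (v i)) ⟨0, by simp⟩
  rw [Finset.mem_range] at hp
  have hmin' : ∀ i, i ≤ d → G.dist w (v p) ≤ G.dist w (v i) := fun i hi =>
    hmin i (by rw [Finset.mem_range]; omega)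
  -- no peaks
  have hpeak : ∀ i, i + 2 ≤ d → ¬ (G.dist w (v (i + 1)) = G.dist w (v i) + 1 ∧
      G.dist w (v (i + 1)) = G.dist w (v (i + 2)) + 1) := by
    rintro i hi ⟨h1, h2⟩
    have := closer_unique hG (D.adj i (by omega)) (D.adj (i + 1) (by omega)).symm h1 h2
    have := D.inj (by omega) hi this
    omega
  have hup : ∀ k, p + k ≤ d → G.dist w (v (p + k)) = G.dist w (v p) + k := by
    intro k
    induction k using Nat.strong_induction_on with
    | _ k ih =>
      intro hk
      rcases Nat.eq_zero_or_pos k with h | h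
      · subst h; simp
      · obtain ⟨m, rfl⟩ : ∃ m, k = m + 1 := ⟨k - 1, by omega⟩
        have e1 := ih m (by omega) (by omega)
        have hadj := D.adj (p + m) (by omega)
        rcases hG.dist_eq_dist_add_one_of_adj w hadj with h2 | h2
        · exfalso
          rcases Nat.eq_zero_or_pos m with h3 | h3
          · subst h3
            have := hmin' (p + 1) (by omega)
            simp only [add_zero] at h2
            omega
          · obtain ⟨n, rfl⟩ : ∃ n, m = n + 1 := ⟨m - 1, by omega⟩
            have e2 := ih n (by omega) (by omega)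
            apply hpeak (p + n) (by omega)
            refine ⟨?_, ?_⟩
            · have : p + n + 1 = p + (n + 1) := by ring
              rw [this, e1, e2]; ring
            · have : p + n + 1 = p + (n + 1) := by ring
              rw [this, h2]
              have : p + (n + 1) + 1 = p + n + 2 := by ring
              rw [this]
        · have : p + (m + 1) = p + m + 1 := by ring
          rw [this, h2, e1]; ring
  have hdown : ∀ k, k ≤ p → G.dist w (v (p - k)) = G.dist w (v p) + k := by
    intro k
    induction k using Nat.strong_induction_on with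
    | _ k ih =>
      intro hk
      rcases Nat.eq_zero_or_pos k with h | h
      · subst h; simp
      · obtain ⟨m, rfl⟩ : ∃ m, k = m + 1 := ⟨k - 1, by omega⟩
        have e1 := ih m (by omega) (by omega)
        have hs : p - m = p - (m + 1) + 1 := by omega
        have hadj := D.adj (p - (m + 1)) (by omega)
        rw [← hs] at hadj
        rcases hG.dist_eq_dist_add_one_of_adj w hadj with h2 | h2
        · rw [h2, e1]; ring
        · exfalso
          rcases Nat.eq_zero_or_pos m with h3 | h3
          · subst h3
            have := hmin' (p - 1) (by omega)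
            simp only [Nat.sub_zero, zero_add] at h2
            omega
          · obtain ⟨n, rfl⟩ : ∃ n, m = n + 1 := ⟨m - 1, by omega⟩
            have e2 := ih n (by omega) (by omega)
            apply hpeak (p - (n + 1 + 1)) (by omega)
            have t1 : p - (n + 1 + 1) + 1 = p - (n + 1) := by omega
            have t2 : p - (n + 1 + 1) + 2 = p - n := by omega
            rw [t1, t2]
            refine ⟨h2, ?_⟩
            rw [e1, e2]; ring
  refine ⟨p, G.dist w (v p), by omega, ?_⟩
  intro i hi
  rcases le_total p i with h | h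
  · have := hup (i - p) (by omega)
    rw [show p + (i - p) = i by omega] at this
    rw [this, abs_of_nonpos (by omega)]
    push_cast [Nat.cast_sub h]
    ring
  · have := hdown (p - i) (by omega)
    rw [show p - (p - i) = i by omega] at this
    rw [this, abs_of_nonneg (by omega)]
    push_cast [Nat.cast_sub h]
    ring

theorem dist_path_le' (hG : G.Connected) (D : DPath G d v) (a k : ℕ) (h : a + k ≤ d) :
    G.dist (v a) (v (a + k)) ≤ k := by
  induction k with
  | zero => simp
  | succ k ih =>
    have h5 := ih (by omega)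
    have h6 := hG.dist_triangle (u := v a) (v := v (a + k)) (w := v (a + (k + 1)))
    have h7 : G.dist (v (a + k)) (v (a + (k + 1))) = 1 :=
      G.dist_eq_one_iff_adj.2 (D.adj (a + k) (by omega))
    omega

theorem dist_path_le (hG : G.Connected) (D : DPath G d v) {a b : ℕ} (ha : a ≤ d) (hb : b ≤ d) :
    (G.dist (v a) (v b) : ℤ) ≤ |(a : ℤ) - b| := by
  rcases le_total a b with h | h
  · have := dist_path_le' hG D a (b - a) (by omega)
    rw [show a + (b - a) = b by omega] at this
    rw [abs_of_nonpos (by omega)]
    omega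
  · have := dist_path_le' hG D b (a - b) (by omega)
    rw [show b + (a - b) = a by omega, G.dist_comm] at this
    rw [abs_of_nonneg (by omega)]
    omega

theorem rep_pred (hG : G.IsTree) (D : DPath G d v) {w : V} {p h : ℕ}
    (hr : Rep G d v w p (h + 1)) : ∃ w', Rep G d v w' p h := by
  have h0 := hr.2 p hr.1
  simp only [sub_self, abs_zero, add_zero] at h0
  obtain ⟨q, hq⟩ := hG.connected.exists_walk_length_eq_dist w (v p)
  have hlen : q.length = h + 1 := by
    rw [hq]; exact_mod_cast h0
  refine ⟨q.getVert 1, hr.1, ?_⟩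
  have hadj : G.Adj w (q.getVert 1) := by
    have := q.adj_getVert_succ (i := 0) (by omega)
    rwa [q.getVert_zero] at this
  have h1 : G.dist (q.getVert 1) (v p) ≤ h := by
    have := G.dist_le (q.drop 1)
    rw [Walk.drop_length] at this
    omega
  intro i hi
  have h2 := hr.2 i hi
  have hwi : G.dist w (v i) ≤ 1 + G.dist (q.getVert 1) (v i) := by
    have h3 := hG.connected.dist_triangle (u := w) (v := q.getVert 1) (w := v i)
    rw [G.dist_eq_one_iff_adj.2 hadj] at h3
    exact h3
  have hpi := dist_path_le hG.connected D hr.1 hi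
  have h3 := hG.connected.dist_triangle (u := q.getVert 1) (v := v p) (w := v i)
  push_cast at h2
  omega

theorem rep_lower (hG : G.IsTree) (D : DPath G d v) {w : V} {p h : ℕ} (hr : Rep G d v w p h) :
    ∀ k, k ≤ h → ∃ w', Rep G d v w' p k := by
  intro k hk
  obtain ⟨m, rfl⟩ := Nat.exists_eq_add_of_le hk
  clear hk
  induction m generalizing w with
  | zero => exact ⟨w, hr⟩
  | succ m ih =>
    obtain ⟨w', hw'⟩ := rep_pred hG D (h := k + m) hr
    exact ih hw'

/-- The right end of the extent of a vertex. -/
noncomputable def hiv (G : SimpleGraph V) (v : ℕ → V) (w : V) : ℤ := G.dist w (v 0)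

/-- The left end of the extent of a vertex. -/
noncomputable def lov (G : SimpleGraph V) (d : ℕ) (v : ℕ → V) (w : V) : ℤ :=
  (d : ℤ) - G.dist w (v d)

theorem rep_hi {w : V} {p h : ℕ} (hr : Rep G d v w p h) : hiv G v w = p + h := by
  have := hr.2 0 (by omega)
  unfold hiv
  rw [this, abs_of_nonneg (by simp)]
  push_cast; ring

theorem rep_lo {w : V} {p h : ℕ} (hr : Rep G d v w p h) : lov G d v w = p - h := by
  have h0 := hr.1
  have := hr.2 d le_rfl
  unfold lov
  rw [this, abs_of_nonpos (by omega)]
  ring

theorem items [Fintype V] (hG : G.IsTree) (D : DPath G d v) :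
    Items (lov G d v) (hiv G v) ((d : ℤ) + 1) where
  lo_nonneg := by
    intro w
    have := D.diam w (v d)
    unfold lov
    omega
  le := by
    intro w
    obtain ⟨p, h, hr⟩ := exists_rep hG D w
    rw [rep_hi hr, rep_lo hr]
    omega
  hi_lt := by
    intro w
    have := D.diam w (v 0)
    unfold hiv
    omega
  path := by
    intro i h0 h1
    refine ⟨v i.toNat, ?_, ?_⟩
    · have := D.distd i.toNat (by omega)
      unfold lov
      omega
    · have := D.dist0 i.toNat (by omega)
      unfold hiv
      rw [G.dist_comm]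
      omega
  cut := by
    intro w e h1 h2
    obtain ⟨p, h, hr⟩ := exists_rep hG D w
    rw [rep_lo hr] at h1
    rw [rep_hi hr] at h2
    rcases le_or_gt e p with h3 | h3
    · obtain ⟨w', hw'⟩ := rep_lower hG D hr (p - e + 1).toNat (by omega)
      refine ⟨w', ?_, Or.inr ?_⟩
      · rw [rep_lo hw', rep_hi hw']; omega
      · rw [rep_lo hw']; omega
    · obtain ⟨w', hw'⟩ := rep_lower hG D hr (e - p).toNat (by omega)
      refine ⟨w', ?_, Or.inl ?_⟩
      · rw [rep_lo hw', rep_hi hw']; omega
      · rw [rep_hi hw']; omega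

theorem dist_le_of_cov (hG : G.IsTree) (D : DPath G d v) {w : V} {x : ℤ} {r : ℕ}
    (h0 : 0 ≤ x) (hx : x ≤ d) (h1 : x - r ≤ lov G d v w) (h2 : hiv G v w ≤ x + r) :
    G.dist w (v x.toNat) ≤ r := by
  obtain ⟨p, h, hr⟩ := exists_rep hG D w
  rw [rep_lo hr] at h1
  rw [rep_hi hr] at h2
  have h3 := hr.2 x.toNat (by omega)
  rcases le_total (p : ℤ) x with h4 | h4
  · rw [abs_of_nonpos (by omega)] at h3
    omega
  · rw [abs_of_nonneg (by omega)] at h3
    omega

end

theorem tree_bound [Fintype V] (hG : G.IsTree) (hn : 2 ≤ Fintype.card V) :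
    ∃ f : V → ℕ, IsDominating2Broadcast G f ∧ 3 * ∑ v, f v ≤ 2 * Fintype.card V + 4 := by
  classical
  have hnt : Nontrivial V := Fintype.one_lt_card_iff_nontrivial.1 (by omega)
  have hd1 : 1 ≤ G.diam := Nat.one_le_iff_ne_zero.2
    (connected_iff_diam_ne_zero.1 hG.connected)
  obtain ⟨v, D⟩ := exists_dpath hG.connected
  have H := items hG D
  obtain ⟨g, hg1, hg2, hg3⟩ := line H (by omega)
  set d := G.diam with hd
  -- the broadcast
  set f : V → ℕ := fun w => if lov G d v w = hiv G v w then min (g (hiv G v w)) d else 0 with hf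
  have hfv : ∀ x : ℤ, 0 ≤ x → x < d + 1 → f (v x.toNat) = min (g x) d := by
    intro x h0 h1
    have e1 : hiv G v (v x.toNat) = x := by
      have := D.dist0 x.toNat (by omega)
      unfold hiv
      rw [G.dist_comm]
      omega
    have e2 : lov G d v (v x.toNat) = x := by
      have := D.distd x.toNat (by omega)
      unfold lov
      omega
    simp only [hf]
    rw [e1, e2, if_pos rfl]
  refine ⟨f, ⟨?_, ?_⟩, ?_⟩
  · intro w
    simp only [hf]
    split_ifs
    · exact min_le_right _ _
    · exact Nat.zero_le _
  · intro u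
    obtain ⟨x, y, hxy, hx, hy⟩ := hg2 u
    have hx' := hg1 x hx.1
    have hy' := hg1 y hy.1
    refine ⟨v x.toNat, v y.toNat, ?_, ?_, ?_, ?_, ?_⟩
    · intro h
      have := D.inj (by omega) (by omega) h
      omega
    · rw [hfv x hx'.1 hx'.2]
      have := hx.1
      omega
    · rw [hfv y hy'.1 hy'.2]
      have := hy.1
      omega
    · rw [hfv x hx'.1 hx'.2]
      exact le_min (dist_le_of_cov hG D hx'.1 (by omega) hx.2.1 hx.2.2) (D.diam _ _)
    · rw [hfv y hy'.1 hy'.2]
      exact le_min (dist_le_of_cov hG D hy'.1 (by omega) hy.2.1 hy.2.2) (D.diam _ _)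
  · -- the cost
    have h1 : ∑ w, f w ≤ ∑ x ∈ Ico 0 ((d : ℤ) + 1), g x := by
      have e1 : ∑ w, f w = ∑ w ∈ univ.filter (fun w => lov G d v w = hiv G v w),
          min (g (hiv G v w)) d := by
        rw [Finset.sum_filter]
      rw [e1]
      have e2 : ∑ w ∈ univ.filter (fun w => lov G d v w = hiv G v w), min (g (hiv G v w)) d
          ≤ ∑ w ∈ univ.filter (fun w => lov G d v w = hiv G v w), g (hiv G v w) :=
        Finset.sum_le_sum fun w _ => min_le_left _ _
      refine le_trans e2 ?_
      have hinj : Set.InjOn (hiv G v)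
          (univ.filter (fun w => lov G d v w = hiv G v w) : Finset V) := by
        intro a ha b hb hab
        simp only [coe_filter, mem_univ, true_and, Set.mem_ofPred_eq] at ha hb
        obtain ⟨p, h, hr⟩ := exists_rep hG D a
        obtain ⟨p', h', hr'⟩ := exists_rep hG D b
        rw [rep_lo hr, rep_hi hr] at ha
        rw [rep_lo hr', rep_hi hr'] at hb
        rw [rep_hi hr, rep_hi hr'] at hab
        have t1 : h = 0 := by omega
        have t2 : h' = 0 := by omega
        subst t1 t2
        have t3 : p = p' := by omega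
        subst t3
        have t4 := hr.2 p hr.1
        have t5 := hr'.2 p hr'.1
        simp only [sub_self, abs_zero, add_zero, Nat.cast_zero, Nat.cast_eq_zero] at t4 t5
        rw [hG.connected.dist_eq_zero_iff] at t4 t5
        rw [t4, t5]
      rw [← Finset.sum_image (g := hiv G v) (f := g) hinj]
      apply Finset.sum_le_sum_of_subset
      intro x hx
      rw [Finset.mem_image] at hx
      obtain ⟨w, _, rfl⟩ := hx
      rw [Finset.mem_Ico]
      have := D.diam w (v 0)
      unfold hiv
      omega
    omega

/-- The bound for every connected graph. -/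
theorem connected_bound [Fintype V] (hG : G.Connected) (hn : 2 ≤ Fintype.card V) :
    ∃ f : V → ℕ, IsDominating2Broadcast G f ∧ 3 * ∑ v, f v ≤ 2 * Fintype.card V + 4 := by
  classical
  obtain ⟨T, hT, hTree⟩ := hG.exists_isTree_le
  obtain ⟨f, hf, hc⟩ := tree_bound hTree hn
  have hnt : Nontrivial V := Fintype.one_lt_card_iff_nontrivial.1 (by omega)
  have hd1 : 1 ≤ G.diam := Nat.one_le_iff_ne_zero.2 (connected_iff_diam_ne_zero.1 hG)
  have hdiam : ∀ x y, G.dist x y ≤ G.diam := fun x y =>
    dist_le_diam (connected_iff_ediam_ne_top.1 hG)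
  refine ⟨fun v => min (f v) G.diam, ⟨fun v => min_le_right _ _, ?_⟩, ?_⟩
  · intro u
    obtain ⟨v₁, v₂, h1, h2, h3, h4, h5⟩ := hf.2 u
    refine ⟨v₁, v₂, h1, by simp only; omega, by simp only; omega, ?_, ?_⟩
    · exact le_min (le_trans ((hTree.connected u v₁).dist_anti hT) h4) (hdiam _ _)
    · exact le_min (le_trans ((hTree.connected u v₂).dist_anti hT) h5) (hdiam _ _)
  · have : ∑ v, min (f v) G.diam ≤ ∑ v, f v := Finset.sum_le_sum fun v _ => min_le_left _ _
    change 3 * ∑ v, min (f v) G.diam ≤ _
    omega

end Pool.Agent.MP888150
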